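import Mathlib
import Pool.Agent.CpTheory.SigmaSpread

/-!
# Even iterates of the function space

Every Tychonoff space `Y` is a closed subspace of `C_p(C_p(Y))`: the image of `Y` consists of the
functionals which are ring homomorphisms. So a space with countable spread for which some iterate
`C_{p,2n}(X)`, `n` positive, is a Lindelöf `Σ`-space has a countable network.
-/

set_option autoImplicit false

open Topology Filter Set

namespace Pool.Agent.Results.MP_cbb19f_gt.EvenIterates

universe u v w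

/-- `C_p(X)`: the continuous real functions on `X` with the topology of pointwise convergence. -/
abbrev Cp (X : Type u) [TopologicalSpace X] : Type u := {f : X → ℝ // Continuous f}

/-- The iterated function spaces: `Iter X 0` is `X` and `Iter X (n + 1)` is `C_p(Iter X n)`. -/
def Iter (X : TopCat.{u}) : ℕ → TopCat.{u}
  | 0 => X
  | n + 1 => TopCat.of (Cp (Iter X n))

/-- `Y` is a continuous image of a closed subspace of the product of a compact space and a
separable metrizable space. -/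
def SigmaImage (Y : Type u) [TopologicalSpace Y] : Prop :=
  ∃ (K : Type v) (M : Type w) (_ : TopologicalSpace K) (_ : TopologicalSpace M)
    (Z : Set (K × M)) (f : Z → Y), CompactSpace K ∧ TopologicalSpace.SeparableSpace M ∧
    TopologicalSpace.MetrizableSpace M ∧ IsClosed Z ∧ Continuous f ∧ Function.Surjective f

/-- `Y` has a cover by compact sets and a countable network modulo this cover. -/
def SigmaNetwork (Y : Type u) [TopologicalSpace Y] : Prop :=
  ∃ 𝒞 𝒩 : Set (Set Y), 𝒩.Countable ∧ (∀ K ∈ 𝒞, IsCompact K) ∧ ⋃₀ 𝒞 = Set.univ ∧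
    ∀ K ∈ 𝒞, ∀ U : Set Y, IsOpen U → K ⊆ U → ∃ N ∈ 𝒩, K ⊆ N ∧ N ⊆ U

/-- The two forms of the definition of a Lindelöf `Σ`-space. -/
lemma sigmaNetwork_of_image {Y : Type u} [TopologicalSpace Y] (h : SigmaImage.{u, v, w} Y) :
    SigmaNetwork Y := by
  obtain ⟨K, M, _, _, Z, f, _, _, _, hZ, hf, hfs⟩ := h
  let _ : MetricSpace M := TopologicalSpace.metrizableSpaceMetric M
  have : SecondCountableTopology M := UniformSpace.secondCountable_of_separable M
  refine ⟨range fun m : M => f '' {z | z.1.2 = m},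
    (fun B : Set M => f '' {z | z.1.2 ∈ B}) '' TopologicalSpace.countableBasis M,
    (TopologicalSpace.countable_countableBasis M).image _, ?_, ?_, ?_⟩
  · rintro _ ⟨m, rfl⟩
    refine IsCompact.image ?_ hf
    rw [Subtype.isCompact_iff]
    have : (Subtype.val '' {z : Z | z.1.2 = m} : Set (K × M)) = Z ∩ (univ ×ˢ {m}) := by
      ext z
      constructor
      · rintro ⟨z, hz, rfl⟩
        exact ⟨z.2, ⟨trivial, hz⟩⟩
      · rintro ⟨hz, -, hzm⟩
        exact ⟨⟨z, hz⟩, hzm, rfl⟩
    rw [this]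
    exact (isCompact_univ.prod isCompact_singleton).inter_left hZ
  · rw [eq_univ_iff_forall]
    intro y
    obtain ⟨z, rfl⟩ := hfs y
    exact ⟨_, ⟨z.1.2, rfl⟩, z, rfl, rfl⟩
  · rintro _ ⟨m, rfl⟩ U hU hmU
    obtain ⟨V, hV, hVU⟩ := isOpen_induced_iff.1 (hU.preimage hf)
    have hW : IsOpen (V ∪ Zᶜ) := hV.union hZ.isOpen_compl
    have hsub : (univ : Set K) ×ˢ ({m} : Set M) ⊆ V ∪ Zᶜ := by
      rintro ⟨k, m'⟩ ⟨-, hm'⟩
      by_cases hz : (k, m') ∈ Z
      · left
        have h1 : (⟨(k, m'), hz⟩ : Z) ∈ f ⁻¹' U := hmU ⟨_, hm', rfl⟩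
        rw [← hVU] at h1
        exact h1
      · exact Or.inr hz
    obtain ⟨u, w, _, hw, hu, hmw, huw⟩ := generalized_tube_lemma isCompact_univ
      isCompact_singleton hW hsub
    obtain ⟨B, hB, hmB, hBw⟩ := (TopologicalSpace.isBasis_countableBasis
      M).exists_subset_of_mem_open (hmw rfl) hw
    refine ⟨_, ⟨B, hB, rfl⟩, ?_, ?_⟩
    · rintro _ ⟨z, hz, rfl⟩
      exact ⟨z, by change z.1.2 ∈ B; rw [show z.1.2 = m from hz]; exact hmB, rfl⟩
    · rintro _ ⟨z, hz, rfl⟩
      have h1 : z.1 ∈ V ∪ Zᶜ := huw ⟨hu trivial, hBw hz⟩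
      have h2 : z.1 ∈ V := h1.resolve_right fun h => h z.2
      have h3 : z ∈ f ⁻¹' U := by rw [← hVU]; exact h2
      exact h3

/-- Closed subspaces. -/
lemma SigmaNetwork.of_closedEmbedding {A Y : Type u} [TopologicalSpace A] [TopologicalSpace Y]
    {g : A → Y} (hg : IsClosedEmbedding g) (h : SigmaNetwork Y) : SigmaNetwork A := by
  obtain ⟨𝒞, 𝒩, hN, hK, hcov, hnet⟩ := h
  refine ⟨(fun C => g ⁻¹' C) '' 𝒞, (fun C => g ⁻¹' C) '' 𝒩, hN.image _, ?_, ?_, ?_⟩
  · rintro _ ⟨C, hC, rfl⟩
    exact hg.isCompact_preimage (hK C hC)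
  · rw [eq_univ_iff_forall]
    intro a
    have : g a ∈ ⋃₀ 𝒞 := by rw [hcov]; trivial
    obtain ⟨C, hC, haC⟩ := this
    exact ⟨_, ⟨C, hC, rfl⟩, haC⟩
  · rintro _ ⟨C, hC, rfl⟩ U hU hCU
    obtain ⟨V, hV, rfl⟩ := hg.isInducing.isOpen_iff.1 hU
    have hsub : C ⊆ V ∪ (range g)ᶜ := by
      intro y hy
      by_cases hyr : y ∈ range g
      · obtain ⟨a, rfl⟩ := hyr
        exact Or.inl (hCU hy)
      · exact Or.inr hyr
    obtain ⟨N, hN', hCN, hNV⟩ := hnet C hC _ (hV.union hg.isClosed_range.isOpen_compl) hsub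
    refine ⟨_, ⟨N, hN', rfl⟩, preimage_mono hCN, ?_⟩
    intro a ha
    exact (hNV ha).resolve_right fun h => h (mem_range_self a)

/-- Evaluation at a point. -/
def evp {Y : Type u} [TopologicalSpace Y] (y : Y) : Cp (Cp Y) :=
  ⟨fun f => f.1 y, (continuous_apply y).comp continuous_subtype_val⟩

/-- Evaluation is continuous. -/
lemma continuous_evp {Y : Type u} [TopologicalSpace Y] : Continuous (evp (Y := Y)) := by
  refine Continuous.subtype_mk ?_ _
  exact continuous_pi fun f => f.2

/-- Evaluation is an embedding. -/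
lemma isEmbedding_evp {Y : Type u} [TopologicalSpace Y] [T35Space Y] :
    IsEmbedding (evp (Y := Y)) := by
  refine ⟨isInducing_iff_nhds.2 fun y => ?_, ?_⟩
  · refine le_antisymm continuous_evp.continuousAt.tendsto.le_comap ?_
    intro U hU
    obtain ⟨V, hVU, hV, hyV⟩ := mem_nhds_iff.1 hU
    obtain ⟨f, hfc, hfy, hf1⟩ := CompletelyRegularSpace.completely_regular y Vᶜ
      hV.isClosed_compl (by simpa using hyV)
    let F : Cp Y := ⟨fun z => (f z : ℝ), continuous_subtype_val.comp hfc⟩
    have hopen : IsOpen {φ : Cp (Cp Y) | φ.1 F < 1} :=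
      isOpen_lt ((continuous_apply F).comp continuous_subtype_val) continuous_const
    rw [mem_comap]
    refine ⟨_, hopen.mem_nhds (show (evp y).1 F < 1 from ?_), ?_⟩
    · change ((f y : unitInterval) : ℝ) < 1
      rw [hfy]
      norm_num
    · intro z hz
      by_contra hzU
      have h1 : f z = 1 := hf1 fun h => hzU (hVU h)
      change ((f z : unitInterval) : ℝ) < 1 at hz
      rw [h1] at hz
      norm_num at hz
  · intro y z hyz
    by_contra hne
    obtain ⟨f, hfc, hfy, hf1⟩ := CompletelyRegularSpace.completely_regular y {z}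
      isClosed_singleton (by simpa using hne)
    have h1 : f z = 1 := hf1 rfl
    have h2 := congrFun (congrArg Subtype.val hyz) ⟨fun z => (f z : ℝ),
      continuous_subtype_val.comp hfc⟩
    change ((f y : unitInterval) : ℝ) = ((f z : unitInterval) : ℝ) at h2
    rw [hfy, h1] at h2
    norm_num at h2

/-- The constant function. -/
def cst {Y : Type u} [TopologicalSpace Y] (c : ℝ) : Cp Y := ⟨fun _ => c, continuous_const⟩

/-- The functionals which are ring homomorphisms. -/
def Mult (Y : Type u) [TopologicalSpace Y] : Set (Cp (Cp Y)) :=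
  {φ | (∀ f g : Cp Y, φ.1 ⟨fun y => f.1 y * g.1 y, f.2.mul g.2⟩ = φ.1 f * φ.1 g) ∧
    (∀ f g : Cp Y, φ.1 ⟨fun y => f.1 y + g.1 y, f.2.add g.2⟩ = φ.1 f + φ.1 g) ∧
    ∀ c, φ.1 (cst c) = c}

/-- The ring homomorphisms form a closed set. -/
lemma isClosed_mult {Y : Type u} [TopologicalSpace Y] : IsClosed (Mult Y) := by
  have hc : ∀ f : Cp Y, Continuous fun φ : Cp (Cp Y) => φ.1 f := fun f =>
    (continuous_apply f).comp continuous_subtype_val
  refine IsClosed.inter (s₁ := {φ : Cp (Cp Y) | ∀ f g : Cp Y,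
    φ.1 ⟨fun y => f.1 y * g.1 y, f.2.mul g.2⟩ = φ.1 f * φ.1 g}) ?_
    (IsClosed.inter (s₁ := {φ : Cp (Cp Y) | ∀ f g : Cp Y,
      φ.1 ⟨fun y => f.1 y + g.1 y, f.2.add g.2⟩ = φ.1 f + φ.1 g}) ?_ ?_)
  · simp only [ofPred_forall]
    exact isClosed_iInter fun f => isClosed_iInter fun g =>
      isClosed_eq (hc _) ((hc f).mul (hc g))
  · simp only [ofPred_forall]
    exact isClosed_iInter fun f => isClosed_iInter fun g =>
      isClosed_eq (hc _) ((hc f).add (hc g))
  · change IsClosed {φ : Cp (Cp Y) | ∀ c, φ.1 (cst c) = c}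
    simp only [ofPred_forall]
    exact isClosed_iInter fun c => isClosed_eq (hc _) continuous_const

/-- Evaluations are ring homomorphisms. -/
lemma evp_mem_mult {Y : Type u} [TopologicalSpace Y] (y : Y) : evp y ∈ Mult Y :=
  ⟨fun _ _ => rfl, fun _ _ => rfl, fun _ => rfl⟩

/-- Every ring homomorphism is an evaluation. -/
lemma mem_range_of_mult {Y : Type u} [TopologicalSpace Y] {φ : Cp (Cp Y)} (h : φ ∈ Mult Y) :
    φ ∈ range (evp (Y := Y)) := by
  classical
  obtain ⟨hmul, hadd, hcst⟩ := h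
  -- the functional depends on finitely many values
  have hopen : IsOpen {f : Cp Y | |φ.1 f| < 1} := isOpen_lt φ.2.abs continuous_const
  have h0 : cst 0 ∈ {f : Cp Y | |φ.1 f| < 1} := by
    change |φ.1 (cst 0)| < 1
    rw [hcst]
    norm_num
  obtain ⟨V, hV, hVeq⟩ := isOpen_induced_iff.1 hopen
  rw [← hVeq] at h0
  obtain ⟨A, u, hu, huV⟩ := isOpen_pi_iff.1 hV _ h0
  have hzero : ∀ f : Cp Y, (∀ a ∈ A, f.1 a = 0) → φ.1 f = 0 := by
    intro f hf
    by_contra hne
    have hc : ∀ c : ℝ, |c * φ.1 f| < 1 := by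
      intro c
      have h1 : (⟨fun y => (cst c : Cp Y).1 y * f.1 y, (cst c).2.mul f.2⟩ : Cp Y) ∈
          {f : Cp Y | |φ.1 f| < 1} := by
        rw [← hVeq]
        refine huV ?_
        intro a ha
        change c * f.1 a ∈ u a
        rw [hf a ha, mul_zero]
        exact (hu a ha).2
      change |φ.1 _| < 1 at h1
      rw [hmul, hcst] at h1
      exact h1
    have h2 := hc (1 / φ.1 f)
    rw [one_div, inv_mul_cancel₀ hne] at h2
    norm_num at h2
  by_contra hcon
  have hex : ∀ a : Y, ∃ f : Cp Y, φ.1 f ≠ f.1 a := by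
    intro a
    by_contra hall
    push Not at hall
    refine hcon ⟨a, ?_⟩
    exact Subtype.ext (funext fun f => (hall f).symm)
  choose f hf using hex
  have hprod : ∀ B : Finset Y, ∃ G : Cp Y, φ.1 G ≠ 0 ∧ ∀ a ∈ B, G.1 a = 0 := by
    intro B
    induction B using Finset.induction_on with
    | empty =>
      refine ⟨cst 1, ?_, by simp⟩
      rw [hcst]
      norm_num
    | insert b B _ ih =>
      obtain ⟨G, hG, hGB⟩ := ih
      let g : Cp Y := ⟨fun y => (f b).1 y + (cst (-(f b).1 b) : Cp Y).1 y,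
        (f b).2.add (cst _).2⟩
      refine ⟨⟨fun y => G.1 y * g.1 y, G.2.mul g.2⟩, ?_, ?_⟩
      · rw [hmul]
        refine mul_ne_zero hG ?_
        change φ.1 ⟨fun y => (f b).1 y + (cst (-(f b).1 b) : Cp Y).1 y, _⟩ ≠ 0
        rw [hadd, hcst]
        intro h
        exact hf b (by linarith)
      · intro a ha
        rcases Finset.mem_insert.1 ha with rfl | ha
        · change G.1 a * ((f a).1 a + -(f a).1 a) = 0
          ring
        · change G.1 a * _ = 0
          rw [hGB a ha, zero_mul]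
  obtain ⟨G, hG, hGA⟩ := hprod A
  exact hG (hzero G hGA)

/-- `Y` is a closed subspace of `C_p(C_p(Y))`. -/
lemma isClosedEmbedding_evp {Y : Type u} [TopologicalSpace Y] [T35Space Y] :
    IsClosedEmbedding (evp (Y := Y)) := by
  refine ⟨isEmbedding_evp, ?_⟩
  have : range (evp (Y := Y)) = Mult Y :=
    Subset.antisymm (by rintro _ ⟨y, rfl⟩; exact evp_mem_mult y) fun φ h => mem_range_of_mult h
  rw [this]
  exact isClosed_mult

/-- The iterated function spaces are Tychonoff spaces. -/
instance t35_iter (X : TopCat.{u}) [T35Space X] (n : ℕ) : T35Space (Iter X n) := by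
  cases n with
  | zero => change T35Space X; infer_instance
  | succ n => change T35Space (Cp (Iter X n)); infer_instance

/-- The space `Y` has a countable network. -/
def HasCountableNetwork (Y : Type u) [TopologicalSpace Y] : Prop :=
  ∃ 𝒩 : Set (Set Y), 𝒩.Countable ∧
    ∀ (y : Y) (U : Set Y), IsOpen U → y ∈ U → ∃ N ∈ 𝒩, y ∈ N ∧ N ⊆ U

/-- Let `X` be a Tychonoff space with countable spread.  If for some `n ≥ 1` the iterated function
space `C_{p,2n}(X)` is a Lindelöf `Σ`-space, in one of the two forms of the definition, then `X`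
has a countable network. -/
theorem result (X : TopCat.{u}) [T35Space X]
    (hspread : ∀ D : Set X, DiscreteTopology D → D.Countable) (n : ℕ) (hn : 1 ≤ n)
    (h : SigmaImage.{u, v, w} (Iter X (2 * n)) ∨ SigmaNetwork (Iter X (2 * n))) :
    HasCountableNetwork X := by
  have h' : SigmaNetwork (Iter X (2 * n)) := h.elim sigmaNetwork_of_image id
  clear h
  induction n, hn using Nat.le_induction with
  | base =>
    obtain ⟨𝒞, 𝒩, hN, hK, hcov, hnet⟩ := h'
    exact Pool.Agent.CpTheory.exists_network hspread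
      (Pool.Agent.CpTheory.IsLS.mk hN hK hcov hnet)
  | succ n hn ih =>
    refine ih ?_
    exact SigmaNetwork.of_closedEmbedding (isClosedEmbedding_evp (Y := Iter X (2 * n))) h'

end Pool.Agent.Results.MP_cbb19f_gt.EvenIterates
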